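import Pool.Agent.X180.OK.Eq
import Pool.Agent.X180.OK.Vec

/-!
# Effective divisors of small numerical dimension on varieties with trivial canonical class, over
arbitrary arrangements in products of projective spaces

Let `X` be a normal projective variety with `K_X ~ 0` and `L` an effective `ℚ`-divisor on `X`. As only
the support of `L` matters in the conclusion, the coefficients of `L` may be taken `≥ 1`: then there are
no conditions on ramification along `L`. Let

  `X ⇢ W_l ⇢ ... ⇢ W_1 ⇢ W_0`, `l ≥ 0`,

be dominant rational maps. Suppose:

* (the base) `W_0 = P^{n_1} × ... × P^{n_m}`, `n_i ≥ 1`, with hyperplanes `ℓ i k = 0` in each factor, an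
  arbitrary arrangement which is not reducible; if `v i k` are the multiplicities of the hyperplanes
  at a prime divisor `P` of `X`, not all zero, then `∑ i, v i (k i) / d i ≥ 1 - L P` for some choice of
  hyperplanes `k i`, one for each factor. Here `d i` is `n i + 2`, or only `n i + 1` if the arrangement
  in the factor does not consist of `n i + 2` hyperplanes in general position. There is no condition at
  the components of `L` with coefficient `1`. Let `k = dim W_0`, if all these inequalities are strict,
  and `k = 0` otherwise.
* (the steps of the tower) for each `i < l` the fibres of `W_{i+1}` over `W_i`, of dimension `e_i`,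
  *with the boundary and the multiplicities of the fibres of `(X, L)` over `W_{i+1}`*, correspond to the
  product of one orbifold `V_i` (which does not depend on the point of `W_i`) and of moving log
  canonical arrangements: there are a variety `X'` with a generically finite map `X' ⇢ X` (ramified
  anywhere) and a rational map of `X'` to `V_i × P^{r_1} × ... × P^{r_c}`, `r_j ≥ 1`, which is dominant
  on the fibres of `X'` over `W_i`, and whose fibres (over `W_i`) are, up to finite maps, the fibres of
  `X' ⇢ W_{i+1}`; `a (p) ≥ 0` is the log discrepancy of an orbifold divisor at the places `p` of `V_i`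
  in the image of the prime divisors of `X` (`a (p) = 0` is allowed: logarithmic poles), and the
  Kodaira dimension of `(V_i, a)` is at least `h_i`; in each `P^{r_j}` there are any hyperplanes
  `A j k = 0`, in any position, which move with the point of a variety finite over `W_i`, with weights
  `w j k ≥ 0`, such that the arrangement is log canonical (the sum of the weights of hyperplanes with a
  common point is at most the codimension of their intersection) and `∑ k, w j k ≥ r_j + 1`. Let `Q` be
  a place of the function field of `X'` over a prime divisor `P` of `X` with `L P < 1` which dominates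
  `W_i` but not `W_{i+1}`, with ramification index `ε`, let `e j k` be the multiplicities of the
  hyperplanes at `Q`, and `R = ∑ (mx_j - ∑ w j k e j k)`, where `mx_j` is the greatest sum of `r_j + 1`
  of the `e j k` whose hyperplanes have no common point. Then `ε (1 - L P) ≤ ν a (p) + R` if `Q` lies
  over the place `p` of `V_i`, with ramification index `ν`; and if `Q` dominates `V_i` then
  `ε (1 - L P) ≤ R`, or `ε (1 - L P) ≤ 1` if all `e j k` are zero. Let `λ_i` be the sum of `h_i` and of
  the `r_j` with `∑ k, w j k > r_j + 1`.
* (the fibres of `X` over `W_l`) there is a correspondence `X'` as above between `X` and a relative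
  product `P^{r_1} × ... × P^{r_c}` over `W_l` (`c = 0` is allowed), with log canonical moving hyperplane
  arrangements with weights in `[0, 1]` (with any sum) and `ε (1 - L P) ≤ R` (`ε (1 - L P) ≤ 1`, if all
  `e j k` are zero) at the prime divisors `P` of `X` with `L P < 1` which dominate `W_l`; and at the
  places over the prime divisors of the product `K_X + L` is at most the pull back of the log
  canonical divisor of the arrangement (`Cor`). Let `λ` be the sum of the `r_j` with
  `∑ k, w j k > r_j + 1`. (For instance the fibres may be isogenous to products of elliptic curves,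
  which are double covers of `P^1` with four branch points: here `∑ k, w j k = r_j + 1` for all `j`,
  and `λ = 0`.)

Let `p` be a natural number with `p ≤ k + ∑ λ_i + λ`. Then `∑ k, w j k ≥ r_j + 1` for all `j` (for the
fibres over `W_l`), and

  `κ(L') = ν(L') = p`

for all effective `ℚ`-divisors `L'` with `Supp L' = Supp L` and `ν(L') ≤ p`.

Relation with the question: let `X` be a projective primitive symplectic variety of dimension `2 p`,
and let `L'` be a nef line bundle with `q(L') = 0`, not numerically trivial, some multiple of which has
a section with the support of `L`. Then `ν(L') = p` by Fujiki's relation, so `κ(L') = ν(L')`, and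
`K_X + t L' ~ t L'` is nef and abundant, and a klt adjoint divisor for small `t > 0`; so `L'` is
semiample (Kawamata 1985), and induces a holomorphic Lagrangian fibration (Matsushita, Schwald). The
maps of the tower are only rational.

Notation: `X` is given by the homogeneous coordinates `y` of its generic point, with values in the
function field `K`; prime divisors are places `P` of `K`, `P.ord` is the order along `P`. `E i` is the
function field of `W_i`. `iitakaDim` and `nuDim` are the literal definitions of the Iitaka and of the
numerical dimension of a divisor by means of the dimensions of the spaces of sections of `m L'` and of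
`m L' + A`. Definitions: `Pool/Agent/X180/OJ/Defs` (`JointFibres`, `IsTower`), `OK/Defs`
(`TorsionCanonical`, `SameSupport`, `iitakaDim`, `nuDim`), `OP/Defs`; those on the base are below.

Proof: the forms of a step are products of the pull backs of the forms of `V_i`, of determinants of
logarithmic derivatives of the linear forms, and of one joint Wronskian of the coordinates of `V_i` and
of the `P^{r_j}`; locally, at `Q`, one compares with the arrangement enlarged by a simplex of
logarithmic coordinates of `V_i` at `p` (`Pool.Agent.X180.OJ.joint_est`). The coefficients are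
algebraic over the function field of `W_{i+1}`, and their norms are estimated at the prime divisors of
`X` (`Pool.Agent.X180.OJ.joint_part`). The forms of the steps and of the base are multiplied along
adapted regular vector fields, and with powers of the canonical form without zeros, which gives the
lower bound for `κ(L')`; and `κ(L') ≤ ν(L') ≤ p` (`Pool.Agent.X180.OK.iso_tow`).
-/

set_option autoImplicit false

open FF Module Pool.Agent.W602.GT Pool.Agent.Y172 Pool.Agent.Y191
open Pool.Agent.X180.OP (Fibres big)
open Pool.Agent.X180.OJ (IsTower)
open Pool.Agent.X180.OK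

namespace Pool.Agent.Results.MP_63735c_ag.DivisorsOverProducts

/-- The arrangement of hyperplanes in projective `n`-space with the coefficients `ℓ k` is reducible:
`ℂ ^ (n + 1)` is the direct sum of two nonzero subspaces which contain, together, all the `ℓ k` (in
suitable coordinates, the equation of each hyperplane uses the variables of one of two groups). -/
def Reducible {n q : ℕ} (ℓ : Fin q → Fin (n + 1) → ℂ) : Prop :=
  ∃ U V : Submodule ℂ (Fin (n + 1) → ℂ), U ≠ ⊥ ∧ V ≠ ⊥ ∧ IsCompl U V ∧ ∀ k, ℓ k ∈ U ∨ ℓ k ∈ V

/-- The bound for one arrangement in projective `n`-space: `n + 2`, and even `n + 1` if it is not true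
that in suitable coordinates `X 0, ..., X n` each of the hyperplanes is one of `X j = 0` or
`X 0 + ... + X n = 0` (an arrangement with this property which is not reducible consists of `n + 2`
hyperplanes in general position). -/
def Bound {n q : ℕ} (ℓ : Fin q → Fin (n + 1) → ℂ) (d : ℕ) : Prop :=
  d = n + 2 ∨ (d = n + 1 ∧ ¬ ∃ X : Basis (Fin (n + 1)) ℂ (Fin (n + 1) → ℂ), ∀ k,
    ∃ c : ℂ, ℓ k = c • ∑ j, X j ∨ ∃ j, ℓ k = c • X j)

variable {m : ℕ} {n q : Fin m → ℕ}

/-- The affine coordinates `x i (j + 1) / x i 0` of the points with the homogeneous coordinates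
`x i`. -/
def affine {K : Type} [Field K] (x : ∀ i, Fin (n i + 1) → K) (b : (i : Fin m) × Fin (n i)) : K :=
  x b.1 b.2.succ / x b.1 0

/-- The multiplicities over the base, at the prime divisors `P` in the set `S`: if the hyperplanes
`ℓ i k` have the multiplicities `v i k` at `P` (their orders are `a i + v i k`, where `a i` is the
minimum of the orders of the coordinates `x i j`), not all zero, then `1 - L P` is in the relation
`rel` (`≤` or `<`) to `∑ i, v i (k i) / d i` for some `k`. -/
def Multiplicities {K : Type} [Field K] [Algebra ℂ K] (S : Set (Place ℂ K))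
    (L : Place ℂ K → ℚ) (ℓ : ∀ i, Fin (q i) → Fin (n i + 1) → ℂ) (x : ∀ i, Fin (n i + 1) → K)
    (d : Fin m → ℕ) (rel : ℚ → ℚ → Prop) : Prop :=
  ∀ P ∈ S, ∀ (a : Fin m → ℤ) (v : ∀ i, Fin (q i) → ℕ),
    (∀ i, MOrd P (fun k j => algebraMap ℂ K (ℓ i k j)) (x i) (a i) (v i)) → (∃ i, v i ≠ 0) →
    ∃ k : ∀ i, Fin (q i), rel (1 - L P) (∑ i, (v i (k i) : ℚ) / d i)

/-- **Abundance for divisors of small numerical dimension.** Let `ℓ i` be arbitrary arrangements of
hyperplanes, which are not reducible, in projective spaces of dimensions `n i ≥ 1`, `d i` the bounds.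
Let `X` be a normal projective variety with `K_X ~ 0`, `L` an effective `ℚ`-divisor, and
`X ⇢ W_l ⇢ ... ⇢ W_0` a tower of dominant rational maps over the product `W_0` of the projective spaces,
given by homogeneous coordinates `x i`, whose steps, with the boundary `L`, are as in `JointFibres`, of
dimensions `e i` and log Kodaira dimensions `lam i`. Suppose that at each prime divisor `P` of `X` over
one of the hyperplanes `1 - L P ≤ ∑ i, v i (k i) / d i` for the multiplicities `v` and some `k`, and let
the fibres of `X` over `W_l` be as in `Fibres`. Let `p ≤ ∑ i, lam i + big`; or let these inequalities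
be strict, and `p ≤ dim W_0 + ∑ i, lam i + big`. Then `r j + 1 ≤ ∑ i, w j i` for all `j`, and for all
effective `ℚ`-divisors `L'` with the same support as `L` whose numerical dimension is at most `p`, the
Iitaka dimension and the numerical dimension are `p`. -/
theorem result (hn : ∀ i, 1 ≤ n i) (ℓ : ∀ i, Fin (q i) → Fin (n i + 1) → ℂ)
    (hℓ : ∀ i k, ℓ i k ≠ 0) (hr : ∀ i, ¬ Reducible (ℓ i)) (d : Fin m → ℕ)
    (hd : ∀ i, Bound (ℓ i) (d i)) (K : Type) [Field K] [Algebra ℂ K]
    (N l c p : ℕ) (E : Fin (l + 1) → IntermediateField ℂ K) (D : Fin (l + 1) → ℕ)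
    (e lam : Fin l → ℕ) (r s : Fin c → ℕ) (y : Fin (N + 1) → K) (L : Place ℂ K → ℚ)
    (hy : NormalModel y) (htr : Algebra.trdeg ℂ K = (D (Fin.last l) + ∑ j, r j : ℕ))
    (hK : TorsionCanonical y (D (Fin.last l) + ∑ j, r j) 1) (hL : Effective y L)
    (x : ∀ i, Fin (n i + 1) → K) (hx0 : ∀ i, x i 0 ≠ 0)
    (hind : AlgebraicIndependent ℂ (affine x))
    (hE0 : E 0 = IntermediateField.adjoin ℂ (Set.range (affine x)))
    (hT : IsTower {P | IsPrimeDivisor y P} (fun P => (L P : ℝ)) E D e lam)
    (w : ∀ j, Fin (s j) → ℚ)
    (hF : Fibres y (D (Fin.last l) + ∑ j, r j) L {P | IsPrimeDivisor y P ∧ L P < 1}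
      (E (Fin.last l)) r s w)
    (hp : (Multiplicities {P | IsPrimeDivisor y P} L ℓ x d (· ≤ ·) ∧
        p ≤ ∑ i, lam i + big r s w) ∨
      (Multiplicities {P | IsPrimeDivisor y P} L ℓ x d (· < ·) ∧
        p ≤ ∑ i, n i + ∑ i, lam i + big r s w)) :
    (∀ j, (r j + 1 : ℚ) ≤ ∑ i, w j i) ∧ ∀ L', SameSupport y L L' →
      (∀ A, Effective y A → Integral y A → nuDim y L' A ≤ (p : EReal)) →
      iitakaDim y L' = (p : WithBot ℕ) ∧
      ∀ A, Effective y A → Integral y A → nuDim y L' A = (p : EReal) := by
  have hn' : D (Fin.last l) + ∑ j, r j = D 0 + (∑ i, e i + ∑ j, r j) := by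
    rw [Pool.Agent.X180.TP.dims fun i => (hT.2 i).2.1, add_assoc]
  have hE0' : E 0 = Pool.Agent.X180.OP.BaseField x := hE0
  have htr0 : D 0 = ∑ i, n i := by
    have h3 := hT.1 0
    rw [hE0', Pool.Agent.X180.OP.trdeg_base hind] at h3
    exact_mod_cast h3.symm
  have h2 := fun (lam' : ℕ) h0 => Pool.Agent.X180.OP.prod_base (lam := lam') (d := d) hn
    (ℓ := fun i k => Pool.Agent.X325.OB.vf (ℓ i k))
    (fun i k h => hℓ i k (by simpa using h)) (fun i h => hr i (vec_red h))
    (fun i => vec_bound (hd i)) hx0 hind
    (by rw [← htr0, ← hn']; exact htr) (S := {P | IsPrimeDivisor y P}) (Δ := L)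
    (fun P hP => hL.1 P hP) (hL.2.subset fun P hP => ⟨hP.1, hP.2⟩) h0
  rcases hp with ⟨hm, hp⟩ | ⟨hm, hp⟩
  · have h3 := iso_tow (k := 0) (p := p) hy htr hK hL hT hF (fun lam' h0 => by
      rw [hE0', htr0] at h0
      rw [htr0, zero_add]
      exact (h2 lam' h0).1 (vec_mult hm)) (by rwa [zero_add])
    exact ⟨h3.1, fun L' hL' hν => (h3.2 L' hL' hν).2⟩
  · have h3 := iso_tow (k := ∑ i, n i) (p := p) hy htr hK hL hT hF (fun lam' h0 => by
      rw [hE0', htr0] at h0
      rw [htr0]
      exact (h2 lam' h0).2 (vec_mult hm)) hp
    exact ⟨h3.1, fun L' hL' hν => (h3.2 L' hL' hν).2⟩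

end Pool.Agent.Results.MP_63735c_ag.DivisorsOverProducts
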