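import Pool.Agent.X302.TB.Ample

set_option autoImplicit false

/-!
# The SYZ conjecture for primitive symplectic varieties fails for torsion line bundles

There is a projective primitive symplectic variety `X` of dimension four with a line bundle `L` of
order two: `L ⊗ L ≅ O_X` but `L ≇ O_X`.  This `L` is a nontrivial nef line bundle with `q_X(L) = 0`,
and it induces no Lagrangian fibration.  So the statement of Q1 is false as it is posed, where `L` is
called nontrivial if it is not isomorphic to `O_X`; one has to ask that `L` is not torsion.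

`X = ℂ⁴ / Γ`, where `Γ` consists of the maps `v ↦ g v + c(g) + u`, `u` a vector of Gaussian integers and
`g` an element of the dihedral group of order eight generated by
`s (x₁,x₂,y₁,y₂) = (x₁,-x₂,y₂,y₁)` and `t (x₁,x₂,y₁,y₂) = (x₂,x₁,y₁,-y₂)`, with
`c(s) = (1/2,1/2,0,0)` and `c(t) = (0,0,1/2,1/2)`.  The symplectic form is
`d(x₁+x₂) ∧ dy₁ + d(x₁-x₂) ∧ dy₂`.  No element of `Γ` whose linear part is a reflection of the
dihedral group has a fixed point, so the elements whose linear part is a rotation form a subgroup `Γ'`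
of index two that contains all stabilisers: `ℂ⁴ / Γ' → X` is an etale double cover, and it defines `L`.

`latt`, `IsTorusQuotient`, `IsForm`, `IsPrimitiveSymplectic`, `LineBundle`, `LineBundle.pow`,
`LineBundle.IsSection` and `LineBundle.IsTrivial` are defined in `Pool.Agent.W594.SYZ.Defs2`;
`IsHermitian`, `IsChernForm`, `IsNefForm`, `IsPositiveForm`, `IsDegenerateForm`,
`IsLagrangianFibration` and `Induces` in `Pool.Agent.W594.SYZ.TQDefs`.
-/

namespace Pool.Agent.Results.MP_63735c_ag.TorsionBundle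

open Pool.Agent.W594.SYZ2

/-- There is a primitive symplectic variety `X = ℂ⁴ / Γ` that carries a positive line bundle `A`, and
a line bundle `L` on `X` which is nontrivial, has trivial square, is nef with `q_X(L) = 0` (its Chern
form is zero), such that any two sections of a power of `L` are proportional, and such that `L`
induces no holomorphic Lagrangian fibration. -/
theorem result : ∃ (Γ : Subgroup ((Fin 4 → ℂ) ≃ᵃ[ℂ] (Fin 4 → ℂ))) (L A : LineBundle Γ)
    (H : (Fin 4 → ℂ) → (Fin 4 → ℂ) → ℂ),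
    IsPrimitiveSymplectic Γ ∧ IsChernForm A H ∧ IsPositiveForm H ∧
    ¬ L.IsTrivial ∧ (L.pow 2).IsTrivial ∧
    IsChernForm L (fun _ _ => 0) ∧ IsNefForm (fun _ _ : Fin 4 → ℂ => (0 : ℂ)) ∧
    IsDegenerateForm (fun _ _ : Fin 4 → ℂ => (0 : ℂ)) ∧
    (∀ (m : ℕ) (s t : (Fin 4 → ℂ) → ℂ), (L.pow m).IsSection s → (L.pow m).IsSection t →
      t 0 • s = s 0 • t) ∧
    ∀ {W : Type*} [NormedAddCommGroup W] [NormedSpace ℂ W] (Δ : Subgroup (W ≃ᵃ[ℂ] W))
      (π : (Fin 4 → ℂ) →ₗ[ℂ] W), IsLagrangianFibration Γ Δ π → ¬ Induces L Δ π := by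
  refine ⟨Pool.Agent.X302.TB.Γ, Pool.Agent.X302.TB.L, Pool.Agent.X302.TB.A, _,
    Pool.Agent.X302.TB.isPrimitiveSymplectic, Pool.Agent.X302.TB.A_chern,
    Pool.Agent.X302.TB.A_pos, Pool.Agent.X302.TB.not_trivial, Pool.Agent.X302.TB.sq_trivial,
    Pool.Agent.X302.TB.chern_zero, Pool.Agent.X302.TB.nef_zero,
    Pool.Agent.X302.TB.degenerate_zero, fun m s t hs ht => ?_, fun Δ π hf => ?_⟩
  · funext v
    rw [Pi.smul_apply, Pi.smul_apply, smul_eq_mul, smul_eq_mul,
      Pool.Agent.X302.TB.sec_const m s hs v 0, Pool.Agent.X302.TB.sec_const m t ht v 0, mul_comm]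
  · exact Pool.Agent.X302.TB.not_induces Pool.Agent.X302.TB.isTorusQuotient _ 2 (by norm_num)
      Pool.Agent.X302.TB.sq_trivial Δ π hf

end Pool.Agent.Results.MP_63735c_ag.TorsionBundle
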